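import Pool.Agent.Lib.MP_bc213e_ag.CA.Lead

/-! Bigraded systems of power series with sections of high vanishing order and isolated base
point: comparison of the dimensions. -/

namespace Pool.Agent.Lib.MP_bc213e_ag.CA

open MvPowerSeries Finsupp Module Filter

variable {n : ℕ} {F : Type} [Field F]

/-- The series of order at least `D`. -/
def Ord (n : ℕ) (F : Type) [Field F] (D : ℕ) : Ideal (MvPowerSeries (Fin n) F) where
  carrier := {φ | (D : ℕ∞) ≤ φ.order}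
  add_mem' := fun ha hb => (le_min ha hb).trans min_order_le_add
  zero_mem' := by simp
  smul_mem' := fun _ _ h => h.trans (le_add_self.trans le_order_mul)

theorem mem_Ord {D : ℕ} {φ : MvPowerSeries (Fin n) F} :
    φ ∈ Ord n F D ↔ ∀ d, degree d < D → coeff d φ = 0 :=
  ⟨fun h _ hd => coeff_of_lt_order (lt_of_lt_of_le (by exact_mod_cast hd) h), nat_le_order⟩

theorem Ord_mul {D D' : ℕ} {φ ψ : MvPowerSeries (Fin n) F} (h : φ ∈ Ord n F D)
    (h' : ψ ∈ Ord n F D') : φ * ψ ∈ Ord n F (D + D') := by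
  change ((D + D' : ℕ) : ℕ∞) ≤ _
  rw [Nat.cast_add]
  exact (add_le_add h h').trans le_order_mul

theorem Ord_zero (φ : MvPowerSeries (Fin n) F) : φ ∈ Ord n F 0 :=
  mem_Ord.2 fun _ h => absurd h (Nat.not_lt_zero _)

theorem Ord_pow {D : ℕ} {φ : MvPowerSeries (Fin n) F} (h : φ ∈ Ord n F D) (m : ℕ) :
    φ ^ m ∈ Ord n F (m * D) := by
  induction m with
  | zero => simpa using Ord_zero _
  | succ m ih =>
    rw [pow_succ, add_one_mul]
    exact Ord_mul ih h

theorem Ord_anti {D D' : ℕ} (h : D ≤ D') : Ord n F D' ≤ Ord n F D :=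
  fun _ hφ => mem_Ord.2 fun d hd => mem_Ord.1 hφ d (hd.trans_le h)

theorem sub_sum_mem (D : ℕ) (ψ : MvPowerSeries (Fin n) F) :
    ψ - ∑ β ∈ (finite_of_degree_lt D).toFinset, coeff β ψ • monomial β (1 : F) ∈ Ord n F D := by
  refine mem_Ord.2 fun d hd => ?_
  rw [map_sub, map_sum, Finset.sum_eq_single_of_mem d (by simpa using hd)]
  · simp
  · intro β _ ne
    rw [map_smul, coeff_monomial_ne ne.symm, smul_zero]

theorem lead_of_sub {D : ℕ} {β : Fin n →₀ ℕ} {u : MvPowerSeries (Fin n) F} (hβ : degree β < D)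
    (h : monomial β (1 : F) - u ∈ Ord n F D) : Lead u β := by
  have h1 : ∀ d, degree d < D → coeff d u = coeff d (monomial β (1 : F)) := fun d hd => by
    have := mem_Ord.1 h d hd
    rw [map_sub, sub_eq_zero] at this
    exact this.symm
  refine ⟨by rw [h1 β hβ]; simp, fun γ hγ => ?_⟩
  rw [h1 γ (lt_of_le_of_lt (DegLex.monotone_degree hγ.le) hβ), coeff_monomial_ne]
  rintro rfl
  exact lt_irrefl _ hγ

/-- The expansions at a point of the sections of `t L + a H`. -/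
structure Sys (n : ℕ) (F : Type) [Field F] where
  W : ℕ → ℕ → Submodule F (MvPowerSeries (Fin n) F)
  mul : ∀ {t a t' a' φ ψ}, φ ∈ W t a → ψ ∈ W t' a' → φ * ψ ∈ W (t + t') (a + a')
  one0 : 1 ∈ W 0 0
  one1 : 1 ∈ W 0 1
  X_mem : ∀ l, X l ∈ W 0 1
  nef : ∀ t, ∃ N, 0 < N ∧ ∃ σ ∈ W (N * t) N, IsUnit σ
  rad : ∀ lam, 0 < lam → ∀ l, X l ∈
    (Ideal.span {φ | ∃ t a, 0 < a ∧ φ ∈ W t a ∧ φ ∈ Ord n F (lam * a)}).radical
  fd : ∀ t a, FiniteDimensional F (W t a)

namespace Sys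

variable (S : Sys n F)

theorem pow {t a : ℕ} {φ : MvPowerSeries (Fin n) F} (h : φ ∈ S.W t a) (m : ℕ) :
    φ ^ m ∈ S.W (m * t) (m * a) := by
  induction m with
  | zero => simpa using S.one0
  | succ m ih =>
    rw [pow_succ, add_one_mul, add_one_mul]
    exact S.mul ih h

theorem mono {t t' a a' : ℕ} {φ : MvPowerSeries (Fin n) F} (h : φ ∈ S.W t a) (ht : t = t')
    (ha : a ≤ a') : φ ∈ S.W t' a' := by
  obtain ⟨b, rfl⟩ := Nat.exists_eq_add_of_le ha
  subst ht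
  simpa using S.mul h (S.pow S.one1 b)

theorem monomial_mem (β : Fin n →₀ ℕ) : monomial β (1 : F) ∈ S.W 0 (degree β) := by
  induction β using Finsupp.induction_linear with
  | zero => simpa using S.one0
  | add β γ h h' =>
    have := S.mul h h'
    rwa [monomial_mul_monomial, mul_one, ← map_add] at this
  | single l k =>
    rw [← X_pow_eq, degree_single]
    simpa using S.pow (S.X_mem l) k

/-- Sections of `k (t L + a H)`. -/
def U (t a k : ℕ) : Submodule F (MvPowerSeries (Fin n) F) := S.W (k * t) (k * a)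

/-- The ideal generated by the sections of `k (t L + a H)` of order at least `E k`. -/
noncomputable def Q (t a E k : ℕ) : Ideal (MvPowerSeries (Fin n) F) :=
  Ideal.span {φ | φ ∈ S.U t a k ∧ φ ∈ Ord n F (E * k)}

theorem U_mul {t a k k' : ℕ} {φ ψ : MvPowerSeries (Fin n) F} (h : φ ∈ S.U t a k)
    (h' : ψ ∈ S.U t a k') : φ * ψ ∈ S.U t a (k + k') :=
  S.mono (S.mul h h') (by ring) (le_of_eq (by ring))

theorem U_pow {t a k : ℕ} {φ : MvPowerSeries (Fin n) F} (h : φ ∈ S.U t a k) (m : ℕ) :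
    φ ^ m ∈ S.U t a (m * k) :=
  S.mono (S.pow h m) (by ring) (le_of_eq (by ring))

theorem pad {a : ℕ} (ha : 0 < a) (E : ℕ) {φ : MvPowerSeries (Fin n) F}
    (h : φ ∈ Ideal.span {φ | ∃ t a, 0 < a ∧ φ ∈ S.W t a ∧ φ ∈ Ord n F (2 * E * a)}) :
    ∀ᶠ t : ℕ in atTop, ∃ k, 0 < k ∧ ∀ m, 0 < m → φ ∈ (S.Q t a E (m * k)).radical := by
  induction h using Submodule.span_induction with
  | mem s hs =>
    obtain ⟨t₁, a₁, h1, h2, h3⟩ := hs
    refine (eventually_ge_atTop (a * t₁)).mono fun t ht => ?_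
    obtain ⟨t', ht'⟩ := Nat.exists_eq_add_of_le (show a * t₁ ≤ 2 * a₁ * t by nlinarith)
    obtain ⟨N, hN, σ, hσ, hu⟩ := S.nef t'
    refine ⟨2 * N * a₁, by positivity, fun m hm => ?_⟩
    have h4 : s ^ (N * a) * σ ∈ S.U t a (2 * N * a₁) := by
      refine S.mono (S.mul (S.pow h2 (N * a)) hσ) ?_ ?_
      · calc N * a * t₁ + N * t' = N * (a * t₁ + t') := by ring
          _ = 2 * N * a₁ * t := by rw [← ht']; ring
      · have : N * 1 ≤ N * (a * a₁) := Nat.mul_le_mul_left N (Nat.mul_pos ha h1)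
        nlinarith
    have h5 : s ^ (N * a) * σ ∈ Ord n F (E * (2 * N * a₁)) := by
      refine Ord_anti ?_ (Ideal.mul_mem_right σ _ (Ord_pow h3 (N * a)))
      have : E * (2 * N * a₁) * 1 ≤ E * (2 * N * a₁) * a := Nat.mul_le_mul_left _ ha
      nlinarith
    have h6 : (s ^ (N * a) * σ) ^ m ∈ S.Q t a E (m * (2 * N * a₁)) :=
      Ideal.subset_span ⟨S.U_pow h4 m, Ord_anti (le_of_eq (by ring)) (Ord_pow h5 m)⟩
    rw [mul_pow, Ideal.mul_unit_mem_iff_mem _ (hu.pow m), ← pow_mul] at h6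
    exact ⟨_, h6⟩
  | zero => exact Eventually.of_forall fun t => ⟨1, one_pos, fun m _ => zero_mem _⟩
  | add φ ψ _ _ h h' =>
    refine (h.and h').mono fun t ⟨⟨k, hk, h1⟩, k', hk', h2⟩ => ⟨k * k', by positivity,
      fun m hm => add_mem ?_ ?_⟩
    · rw [show m * (k * k') = m * k' * k by ring]
      exact h1 _ (by positivity)
    · rw [← mul_assoc]
      exact h2 _ (by positivity)
  | smul c φ _ h =>
    exact h.mono fun t ⟨k, hk, h1⟩ => ⟨k, hk, fun m hm => Ideal.mul_mem_left _ c (h1 m hm)⟩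

theorem pad_X {a : ℕ} (ha : 0 < a) {E : ℕ} (hE : 0 < E) :
    ∀ᶠ t : ℕ in atTop, ∃ k, 0 < k ∧ ∀ m, 0 < m → ∀ l, X l ∈ (S.Q t a E (m * k)).radical := by
  have h : ∀ l : Fin n, ∀ᶠ t : ℕ in atTop, ∃ k, 0 < k ∧ ∀ m, 0 < m →
      X l ∈ (S.Q t a E (m * k)).radical := fun l => by
    obtain ⟨N, hN⟩ := S.rad (2 * E) (by positivity) l
    refine (S.pad ha E hN).mono fun t ⟨k, hk, h1⟩ => ⟨k, hk, fun m hm => ?_⟩
    exact (Ideal.radical_isRadical _) ⟨N, h1 m hm⟩
  refine (eventually_all.2 h).mono fun t ht => ?_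
  choose k hk h1 using ht
  refine ⟨∏ l, k l, Finset.prod_pos fun l _ => hk l, fun m hm l => ?_⟩
  rw [← Finset.prod_erase_mul _ _ (Finset.mem_univ l), ← mul_assoc]
  exact h1 l _ (Nat.mul_pos hm (Finset.prod_pos fun l _ => hk l))

theorem base {t a N : ℕ} (ha : 0 < a) (hN : 0 < N) {σ : MvPowerSeries (Fin n) F}
    (hσ : σ ∈ S.W (N * (2 * t)) N) (hu : IsUnit σ) (Q : Ideal (MvPowerSeries (Fin n) F))
    (hQ : ∀ l, X l ∈ Q.radical) :
    ∃ c, ∀ D φ, ∃ u ∈ S.U t a c, ∃ q ∈ Q, φ - (u + q) ∈ Ord n F D := by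
  choose N₁ h1 using hQ
  let e := ∑ l, N₁ l
  refine ⟨2 * N * e, fun D φ => ?_⟩
  obtain ⟨ψ, rfl⟩ : ∃ ψ, φ = σ ^ e * ψ := (hu.pow e).dvd
  have h2 : ∀ β : Fin n →₀ ℕ,
      σ ^ e * monomial β (1 : F) ∈ S.U t a (2 * N * e) ⊔ Q.restrictScalars F := fun β => by
    by_cases hβ : ∀ l, β l ≤ N₁ l
    · refine Submodule.mem_sup_left (S.mono (S.mul (S.pow hσ e) (S.monomial_mem β)) (by ring) ?_)
      have h3 : degree β ≤ e := by
        rw [degree_eq_sum]
        exact Finset.sum_le_sum fun l _ => hβ l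
      have h4 : e * 1 ≤ e * N := Nat.mul_le_mul_left e hN
      have h5 : 2 * N * e * 1 ≤ 2 * N * e * a := Nat.mul_le_mul_left _ ha
      nlinarith
    · push Not at hβ
      obtain ⟨l, hl⟩ := hβ
      refine Submodule.mem_sup_right (Ideal.mul_mem_left _ _ ?_)
      have h3 : β = (β - single l (N₁ l)) + single l (N₁ l) :=
        (tsub_add_cancel_of_le (single_le_iff.2 hl.le)).symm
      rw [h3, ← mul_one (1 : F), ← monomial_mul_monomial, ← X_pow_eq]
      exact Ideal.mul_mem_left _ _ (h1 l)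
  have h3 : σ ^ e * ∑ β ∈ (finite_of_degree_lt D).toFinset, coeff β ψ • monomial β (1 : F) ∈
      S.U t a (2 * N * e) ⊔ Q.restrictScalars F := by
    rw [Finset.mul_sum (R := MvPowerSeries (Fin n) F)]
    refine Submodule.sum_mem _ fun β _ => ?_
    rw [mul_smul_comm]
    exact Submodule.smul_mem _ _ (h2 β)
  obtain ⟨u, hu, q, hq, h4⟩ := Submodule.mem_sup.1 h3
  refine ⟨u, hu, q, hq, ?_⟩
  rw [h4, ← mul_sub]
  exact Ideal.mul_mem_left _ _ (sub_sum_mem D ψ)

theorem lemG {t a E k c : ℕ} {σ : MvPowerSeries (Fin n) F} (hσ : σ ∈ S.U t a k) (hu : IsUnit σ)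
    (h : ∀ D φ, ∃ u ∈ S.U t a c, ∃ q ∈ S.Q t a E k, φ - (u + q) ∈ Ord n F D) (l : ℕ) :
    ∀ φ, ∃ u ∈ S.U t a (c + l * k), φ - u ∈ Ord n F (E * k * l) := by
  induction l with
  | zero => exact fun φ => ⟨0, zero_mem _, by simpa using Ord_zero _⟩
  | succ l ih =>
    have h1 : ∀ q ∈ S.Q t a E k, ∀ ψ, ∃ u ∈ S.U t a (c + (l + 1) * k),
        ψ * q - u ∈ Ord n F (E * k * (l + 1)) := by
      intro q hq
      induction hq using Submodule.span_induction with
      | mem s hs =>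
        intro ψ
        obtain ⟨u, h1, h2⟩ := ih ψ
        refine ⟨u * s, ?_, ?_⟩
        · rw [add_one_mul, ← add_assoc]
          exact S.U_mul h1 hs.1
        · rw [← sub_mul, mul_add_one]
          exact Ord_mul h2 hs.2
      | zero => exact fun ψ => ⟨0, zero_mem _, by simp⟩
      | add q q' _ _ h1 h2 =>
        intro ψ
        obtain ⟨u, h3, h4⟩ := h1 ψ
        obtain ⟨u', h5, h6⟩ := h2 ψ
        refine ⟨u + u', add_mem h3 h5, ?_⟩
        convert add_mem h4 h6 using 1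
        ring
      | smul b q _ h1 =>
        intro ψ
        rw [smul_eq_mul, ← mul_assoc]
        exact h1 _
    intro φ
    obtain ⟨ψ, rfl⟩ : ∃ ψ, φ = σ ^ (l + 1) * ψ := (hu.pow _).dvd
    obtain ⟨u, h2, q, h3, h4⟩ := h (E * k * (l + 1)) ψ
    obtain ⟨u', h5, h6⟩ := h1 q h3 (σ ^ (l + 1))
    refine ⟨u * σ ^ (l + 1) + u', add_mem (S.U_mul h2 (S.U_pow hσ _)) h5, ?_⟩
    convert add_mem (Ideal.mul_mem_left _ (σ ^ (l + 1)) h4) h6 using 1
    ring

/-- The comparison of the dimensions. -/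
theorem core {a : ℕ} (ha : 0 < a) {E : ℕ} (hE : 0 < E) :
    ∀ᶠ t : ℕ in atTop, ∃ k c : ℕ, 0 < k ∧ ∀ j, finrank F (S.W t a) * (E * k * j) ^ n ≤
      finrank F (S.W (((E + n) * k * j + c) * t) (((E + n) * k * j + c) * a)) := by
  refine (S.pad_X ha hE).mono fun t ⟨k, hk, h1⟩ => ?_
  obtain ⟨N, hN, σ, hσ, hu⟩ := S.nef (2 * t)
  have h2 : σ ^ k ∈ S.U t a (2 * N * k) := by
    refine S.mono (S.pow hσ k) (by ring) ?_
    have : 2 * N * k * 1 ≤ 2 * N * k * a := Nat.mul_le_mul_left _ ha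
    nlinarith
  have hk' : 0 < 2 * N * k := by positivity
  have h3 := h1 (2 * N) (by positivity)
  generalize 2 * N * k = k₀ at h2 hk' h3
  obtain ⟨c, h4⟩ := S.base ha hN hσ hu _ h3
  refine ⟨k₀, c + k₀, hk', fun j => ?_⟩
  have := S.fd
  refine count _ (S.U t a (c + (n * j + 1) * k₀)) _ (fun β hβ => ?_) fun φ hφ ψ hψ => ?_
  · obtain ⟨u, h5, h6⟩ := S.lemG h2 (hu.pow k) h4 (n * j + 1) (monomial β 1)
    refine ⟨u, h5, lead_of_sub ?_ h6⟩
    have h7 : degree β ≤ n * (E * k₀ * j) := by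
      rw [degree_eq_sum]
      simpa using Finset.sum_le_sum fun l (_ : l ∈ Finset.univ) => (hβ l).le
    have h8 : 0 < E * k₀ := by positivity
    nlinarith
  · exact S.mono (S.mul (S.pow hφ _) hψ) (by ring) (le_of_eq (by ring))

end Sys

end Pool.Agent.Lib.MP_bc213e_ag.CA
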