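import Mathlib

/-! Definitions for the theorem on nef line bundles with an excess of sections. -/

namespace Pool.Agent.Lib.MP_bc213e_ag.CA

variable {A : Type} [CommRing A]

/-- `p` is the ideal of a curve through the point `m`: a prime directly below `m`. -/
def Curve (p m : Ideal A) : Prop :=
  p.IsPrime ∧ p < m ∧ ∀ q : Ideal A, q.IsPrime → p < q → ¬ q < m

variable [Algebra ℂ A]

/-- The dimension of the span of the restrictions of the functions in `S` to the subvariety `p`. -/
noncomputable def resDim (p : Ideal A) (S : Set A) : Cardinal :=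
  Module.rank ℂ (Submodule.span ℂ (Ideal.Quotient.mk p '' S))

/-- Through every point of a dense open set there is a curve on which the restrictions of the
functions in `S t a` span a space of dimension bounded in `t`. -/
def Covered (S : ℕ → ℕ → Set A) : Prop :=
  ∃ f : A, f ≠ 0 ∧ ∀ m : Ideal A, m.IsMaximal → f ∉ m →
    ∃ p, Curve p m ∧ ∀ a : ℕ, ∃ C : ℕ, ∀ t : ℕ, resDim p (S t a) ≤ C

end Pool.Agent.Lib.MP_bc213e_ag.CA
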