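import Mathlib

/-! Leading exponents of power series and a counting lemma. -/

namespace Pool.Agent.Lib.MP_bc213e_ag.CA

open MvPowerSeries Finsupp Module

variable {n : ℕ} {F : Type} [Field F]

/-- `α` is the smallest exponent of `φ` for the graded lexicographic order. -/
def Lead (φ : MvPowerSeries (Fin n) F) (α : Fin n →₀ ℕ) : Prop :=
  coeff α φ ≠ 0 ∧ ∀ β, toDegLex β < toDegLex α → coeff β φ = 0

theorem exists_lead {φ : MvPowerSeries (Fin n) F} (h : φ ≠ 0) : ∃ α, Lead φ α := by
  have ne : {d : DegLex (Fin n →₀ ℕ) | coeff (ofDegLex d) φ ≠ 0}.Nonempty := by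
    by_contra h0
    refine h (MvPowerSeries.ext fun d => ?_)
    by_contra h1
    exact h0 ⟨toDegLex d, by simpa using h1⟩
  obtain ⟨d, h1, h2⟩ := WellFounded.has_min wellFounded_lt _ ne
  refine ⟨ofDegLex d, h1, fun β hβ => ?_⟩
  by_contra h3
  exact h2 (toDegLex β) h3 hβ

theorem Lead.mul {φ ψ : MvPowerSeries (Fin n) F} {α β : Fin n →₀ ℕ} (h : Lead φ α)
    (h' : Lead ψ β) : Lead (φ * ψ) (α + β) := by
  constructor
  · rw [coeff_mul, Finset.sum_eq_single_of_mem ⟨α, β⟩ (by simp)]
    · exact mul_ne_zero h.1 h'.1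
    · rintro ⟨u, v⟩ e ne
      replace e : u + v = α + β := by simpa using e
      rcases trichotomy_of_add_eq_add (a := toDegLex u) (b := toDegLex v) (c := toDegLex α)
        (d := toDegLex β) (congrArg toDegLex e) with h'' | h'' | h''
      · exact absurd (Prod.ext (toDegLex_injective h''.1) (toDegLex_injective h''.2)) ne
      · rw [h.2 u h'', zero_mul]
      · rw [h'.2 v h'', mul_zero]
  · intro γ hγ
    rw [coeff_mul]
    refine Finset.sum_eq_zero ?_
    rintro ⟨u, v⟩ e
    replace e : u + v = γ := by simpa using e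
    by_cases hu : toDegLex u < toDegLex α
    · rw [h.2 u hu, zero_mul]
    by_cases hv : toDegLex v < toDegLex β
    · rw [h'.2 v hv, mul_zero]
    exfalso
    rw [← e, toDegLex_add, toDegLex_add] at hγ
    exact absurd hγ (not_lt.2 (add_le_add (not_lt.1 hu) (not_lt.1 hv)))

theorem lead_one : Lead (1 : MvPowerSeries (Fin n) F) 0 := by
  refine ⟨by simp, fun β hβ => ?_⟩
  exact absurd hβ (not_lt.2 (bot_le (a := toDegLex β)))

theorem Lead.pow {φ : MvPowerSeries (Fin n) F} {α : Fin n →₀ ℕ} (h : Lead φ α) (w : ℕ) :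
    Lead (φ ^ w) (w • α) := by
  induction w with
  | zero => simpa using lead_one
  | succ w ih =>
    rw [pow_succ, succ_nsmul]
    exact ih.mul h

theorem lead_indep {κ : Type} (φ : κ → MvPowerSeries (Fin n) F) (α : κ → Fin n →₀ ℕ)
    (h : ∀ i, Lead (φ i) (α i)) (inj : Function.Injective α) : LinearIndependent F φ := by
  classical
  rw [linearIndependent_iff']
  intro s c hs
  by_contra h0
  have ne : (s.filter fun i => c i ≠ 0).Nonempty := by
    push Not at h0
    obtain ⟨i, hi, hc⟩ := h0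
    exact ⟨i, Finset.mem_filter.2 ⟨hi, hc⟩⟩
  obtain ⟨i, hi, hmin⟩ := Finset.exists_min_image _ (fun i => toDegLex (α i)) ne
  obtain ⟨hi, hc⟩ := Finset.mem_filter.1 hi
  have h1 := congrArg (coeff (α i)) hs
  rw [map_sum, map_zero, Finset.sum_eq_single_of_mem i hi] at h1
  · rw [map_smul, smul_eq_mul] at h1
    exact mul_ne_zero hc (h i).1 h1
  · intro j hj ne
    by_cases hcj : c j = 0
    · rw [hcj, zero_smul, map_zero]
    · rw [map_smul, (h j).2 _ (lt_of_le_of_ne (hmin j (Finset.mem_filter.2 ⟨hj, hcj⟩))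
        fun e => ne (inj (toDegLex_injective e)).symm), smul_zero]

/-- The set of the leading exponents of a subspace. -/
def Gam (U : Submodule F (MvPowerSeries (Fin n) F)) : Set (Fin n →₀ ℕ) :=
  {α | ∃ φ ∈ U, Lead φ α}

theorem indep_of_gam {κ : Type} (U : Submodule F (MvPowerSeries (Fin n) F))
    (α : κ → Fin n →₀ ℕ) (h : ∀ i, α i ∈ Gam U) (inj : Function.Injective α) :
    ∃ v : κ → U, LinearIndependent F v := by
  choose φ h1 h2 using h
  exact ⟨fun i => ⟨φ i, h1 i⟩, LinearIndependent.of_comp U.subtype (lead_indep φ α h2 inj)⟩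

theorem gam_finite (U : Submodule F (MvPowerSeries (Fin n) F)) [FiniteDimensional F U] :
    Finite (Gam U) := by
  obtain ⟨v, hv⟩ := indep_of_gam U (fun i : Gam U => i.1) (fun i => i.2) Subtype.val_injective
  exact hv.finite

theorem finrank_le_gam (U : Submodule F (MvPowerSeries (Fin n) F)) [Fintype (Gam U)] :
    finrank F U ≤ Fintype.card (Gam U) := by
  let T : U →ₗ[F] (Gam U → F) := LinearMap.pi fun α => (coeff α.1).comp U.subtype
  have hT : Function.Injective T := by
    rw [injective_iff_map_eq_zero]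
    intro φ hφ
    by_contra h0
    obtain ⟨α, hα⟩ := exists_lead (φ := φ.1) fun e => h0 (Subtype.ext e)
    exact hα.1 (congrFun hφ ⟨α, φ.1, φ.2, hα⟩)
  simpa using LinearMap.finrank_le_finrank_of_injective hT

/-- The counting lemma. -/
theorem count (U V Z : Submodule F (MvPowerSeries (Fin n) F)) [FiniteDimensional F U]
    [FiniteDimensional F Z] {w : ℕ} (hV : ∀ β : Fin n →₀ ℕ, (∀ i, β i < w) → β ∈ Gam V)
    (hZ : ∀ φ ∈ U, ∀ ψ ∈ V, φ ^ w * ψ ∈ Z) : finrank F U * w ^ n ≤ finrank F Z := by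
  have := gam_finite U
  have := Fintype.ofFinite (Gam U)
  let r : (Fin n → Fin w) → Fin n →₀ ℕ := fun b => equivFunOnFinite.symm fun i => (b i : ℕ)
  obtain ⟨v, hv⟩ := indep_of_gam Z (fun p : Gam U × (Fin n → Fin w) => w • p.1.1 + r p.2)
    (fun p => by
      obtain ⟨φ, h1, h2⟩ := p.1.2
      obtain ⟨ψ, h3, h4⟩ := hV (r p.2) fun i => (p.2 i).2
      exact ⟨_, hZ φ h1 ψ h3, (h2.pow w).mul h4⟩)
    (by
      rintro ⟨α, b⟩ ⟨α', b'⟩ e
      have e1 : ∀ i, w * α.1 i + b i = w * α'.1 i + b' i := fun i => by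
        simpa [r] using DFunLike.congr_fun e i
      have e2 : ∀ i, (b i : ℕ) = b' i := fun i => by
        have := congrArg (· % w) (e1 i)
        simpa [Nat.mul_add_mod, Nat.mod_eq_of_lt (b i).2, Nat.mod_eq_of_lt (b' i).2] using this
      refine Prod.ext (Subtype.ext (Finsupp.ext fun i => ?_)) (funext fun i => Fin.ext (e2 i))
      have h1 := e1 i
      rw [e2 i, add_left_inj] at h1
      exact Nat.eq_of_mul_eq_mul_left (b i).pos h1)
  have h1 := hv.fintype_card_le_finrank
  rw [Fintype.card_prod, Fintype.card_fun, Fintype.card_fin, Fintype.card_fin] at h1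
  exact (Nat.mul_le_mul_right _ (finrank_le_gam U)).trans h1

end Pool.Agent.Lib.MP_bc213e_ag.CA
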