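import Mathlib

/-! The numerical part: a Hilbert polynomial with an excess violates the comparison of the
dimensions. -/

namespace Pool.Agent.Lib.MP_bc213e_ag.CA

open Polynomial Filter

theorem coeff_nonneg {q : ℚ[X]} {m : ℕ} (hd : q.natDegree ≤ m)
    (h : ∃ᶠ t : ℕ in atTop, 0 ≤ q.eval (t : ℚ)) : 0 ≤ q.coeff m := by
  rcases hd.lt_or_eq with hd | rfl
  · rw [coeff_eq_zero_of_natDegree_lt hd]
  by_contra hl
  by_cases hd : 0 < q.degree
  · have h1 := ((tendsto_atBot_of_leadingCoeff_nonpos q hd (not_le.1 hl).le).comp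
      tendsto_natCast_atTop_atTop).eventually_lt_atBot 0
    obtain ⟨t, h2, h3⟩ := (h.and_eventually h1).exists
    exact absurd h2 (not_le.2 h3)
  · obtain ⟨t, ht⟩ := h.exists
    rw [eq_C_of_degree_le_zero (not_lt.1 hd)] at ht hl
    exact hl (by simpa using ht)

theorem ev_pos {q : ℚ[X]} {m : ℕ} (hd : q.natDegree ≤ m) (h : 0 < q.coeff m) :
    ∀ᶠ t : ℕ in atTop, 0 < q.eval (t : ℚ) := by
  by_contra h0
  have := coeff_nonneg (q := -q) (m := m) (by simpa using hd)
    ((not_eventually.1 h0).mono fun t ht => by simpa using ht)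
  rw [coeff_neg] at this
  linarith

theorem natDegree_le_of_bound {p : ℚ[X]} {B : ℚ} {n : ℕ}
    (h : ∀ᶠ K : ℕ in atTop, 0 ≤ p.eval (K : ℚ) ∧ p.eval (K : ℚ) ≤ B * (K + 1) ^ n) :
    p.natDegree ≤ n := by
  by_contra h0
  have h1 : (C B * (X + 1) ^ n : ℚ[X]).natDegree ≤ n := by
    refine (natDegree_C_mul_le _ _).trans (natDegree_pow_le.trans ?_)
    rw [← C_1, natDegree_X_add_C, mul_one]
  have h2 := coeff_nonneg le_rfl (h.mono fun K hK => hK.1).frequently
  have h3 := coeff_nonneg (q := C B * (X + 1) ^ n - p) (m := p.natDegree)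
    ((natDegree_sub_le _ _).trans (max_le (h1.trans (not_le.1 h0).le) le_rfl))
    (h.mono fun K hK => by simpa using hK.2).frequently
  rw [coeff_sub, coeff_eq_zero_of_natDegree_lt (h1.trans_lt (not_le.1 h0))] at h3
  have h4 : p = 0 := leadingCoeff_eq_zero.1 (le_antisymm (by simpa using h3) h2)
  simp [h4] at h0

theorem coeff_taylor_of_le {p : ℚ[X]} {n : ℕ} (h : p.natDegree ≤ n) (c : ℚ) :
    (taylor c p).coeff n = p.coeff n := by
  rcases h.lt_or_eq with h | rfl
  · rw [coeff_eq_zero_of_natDegree_lt h,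
      coeff_eq_zero_of_natDegree_lt (by rwa [natDegree_taylor])]
  · exact coeff_taylor_natDegree _ _

theorem evalEval_eq {P : ℚ[X][X]} {ν : ℕ} (deg : P.natDegree ≤ ν) (a t : ℚ) :
    P.evalEval a t = ∑ i ∈ Finset.range (ν + 1), (P.coeff i).eval a * t ^ i := by
  rw [evalEval, eval_eq_sum_range' (Nat.lt_succ_of_le deg), eval_finsetSum]
  simp

/-- The restriction of `P` to the ray through `(t, a)`. -/
noncomputable def ray (P : ℚ[X][X]) (ν : ℕ) (t a : ℚ) : ℚ[X] :=
  ∑ i ∈ Finset.range (ν + 1), C (t ^ i) * ((P.coeff i).comp (C a * X) * X ^ i)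

theorem ray_eval {P : ℚ[X][X]} {ν : ℕ} (deg : P.natDegree ≤ ν) (t a K : ℚ) :
    (ray P ν t a).eval K = P.evalEval (K * a) (K * t) := by
  rw [evalEval_eq deg, ray, eval_finsetSum]
  refine Finset.sum_congr rfl fun i _ => ?_
  simp only [eval_mul, eval_C, eval_comp, eval_X, eval_pow, mul_comm a K]
  ring

theorem ray_coeff (P : ℚ[X][X]) (ν r : ℕ) (t a : ℚ) : (ray P ν t a).coeff (ν + r) =
    ∑ i ∈ Finset.range (ν + 1), (P.coeff i).coeff (ν + r - i) * a ^ (ν + r - i) * t ^ i := by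
  rw [ray, finsetSum_coeff]
  refine Finset.sum_congr rfl fun i hi => ?_
  rw [coeff_C_mul, coeff_mul_X_pow', if_pos (by have := Finset.mem_range.1 hi; omega),
    comp_C_mul_X_coeff, mul_comm]

theorem poly_false {ν r : ℕ} (P : ℚ[X][X]) (deg : P.natDegree ≤ ν)
    (excess : 0 < ((P.coeff ν).erase r).leadingCoeff) (h : ℕ → ℕ → ℕ) (a₀ : ℕ)
    (hP : ∀ t a : ℕ, a₀ ≤ a → (h t a : ℚ) = P.evalEval (a : ℚ) (t : ℚ))
    (growth : ∀ t a, ∃ B : ℕ, ∀ K, h (K * t) (K * a) ≤ B * (K + 1) ^ (ν + r))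
    (core : ∀ a, 0 < a → ∀ E, 0 < E → ∀ᶠ t : ℕ in atTop, ∃ k c : ℕ, 0 < k ∧ ∀ j,
      h t a * (E * k * j) ^ (ν + r) ≤
        h (((E + (ν + r)) * k * j + c) * t) (((E + (ν + r)) * k * j + c) * a)) : False := by
  obtain ⟨a, ha1, ha2, ha3⟩ := ((ev_pos le_rfl excess).and
    ((eventually_ge_atTop a₀).and (eventually_gt_atTop 0))).exists
  have e1 : (P.coeff ν).eval (a : ℚ) =
      (P.coeff ν).coeff r * (a : ℚ) ^ r + ((P.coeff ν).erase r).eval (a : ℚ) := by
    conv_lhs => rw [← monomial_add_erase (P.coeff ν) r]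
    rw [eval_add, eval_monomial]
  have hm : ((X + C ((ν + r : ℕ) : ℚ)) ^ (ν + r)).Monic := (monic_X_add_C _).pow _
  have hm' : ((X + C ((ν + r : ℕ) : ℚ)) ^ (ν + r)).natDegree = ν + r := by
    rw [(monic_X_add_C _).natDegree_pow, natDegree_X_add_C, mul_one]
  obtain ⟨E, hE1, hE2⟩ := ((ev_pos (m := ν + r)
    (q := C ((P.coeff ν).eval (a : ℚ)) * X ^ (ν + r) -
      C ((P.coeff ν).coeff r * (a : ℚ) ^ r) * (X + C ((ν + r : ℕ) : ℚ)) ^ (ν + r))
    ((natDegree_sub_le _ _).trans (max_le (natDegree_C_mul_X_pow_le _ _)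
      ((natDegree_C_mul_le _ _).trans hm'.le)))
    (by
      have := hm.coeff_natDegree
      rw [hm'] at this
      rw [coeff_sub, coeff_C_mul, coeff_C_mul, this, coeff_X_pow_self, e1]
      linarith)).and (eventually_gt_atTop 0)).exists
  simp only [eval_sub, eval_mul, eval_C, eval_pow, eval_X, eval_add] at hE1
  obtain ⟨t, ht1, k, c, hk, ht2⟩ := ((ev_pos (m := ν)
    (q := ∑ i ∈ Finset.range (ν + 1), monomial i ((P.coeff i).eval (a : ℚ) * (E : ℚ) ^ (ν + r) -
      (P.coeff i).coeff (ν + r - i) * (a : ℚ) ^ (ν + r - i) * (E + (ν + r : ℕ)) ^ (ν + r)))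
    (natDegree_sum_le_of_forall_le _ _ fun i hi =>
      (natDegree_monomial_le _).trans (Nat.lt_succ_iff.1 (Finset.mem_range.1 hi)))
    (by
      rw [finsetSum_coeff, Finset.sum_eq_single_of_mem ν (by simp), coeff_monomial_same,
        Nat.add_sub_cancel_left]
      · exact hE1
      · intro i _ ne
        rw [coeff_monomial, if_neg ne])).and (core a ha3 E hE2)).exists
  have e2 : (ray P ν t a).coeff (ν + r) * (E + (ν + r : ℕ)) ^ (ν + r) <
      h t a * (E : ℚ) ^ (ν + r) := by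
    rw [hP t a ha2, evalEval_eq deg, ray_coeff, Finset.sum_mul, Finset.sum_mul, ← sub_pos,
      ← Finset.sum_sub_distrib]
    rw [eval_finsetSum] at ht1
    refine ht1.trans_eq (Finset.sum_congr rfl fun i _ => ?_)
    rw [eval_monomial]
    ring
  have e3 : ∀ K : ℕ, a₀ ≤ K → (ray P ν t a).eval (K : ℚ) = h (K * t) (K * a) := fun K hK => by
    rw [ray_eval deg, hP _ _ (hK.trans (Nat.le_mul_of_pos_right K ha3)), Nat.cast_mul,
      Nat.cast_mul]
  obtain ⟨B, hB⟩ := growth t a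
  have e4 : (ray P ν t a).natDegree ≤ ν + r :=
    natDegree_le_of_bound (B := B) ((eventually_ge_atTop a₀).mono fun K hK => by
      rw [e3 K hK]
      exact ⟨Nat.cast_nonneg _, by exact_mod_cast hB K⟩)
  have e5 := coeff_nonneg (m := ν + r)
    (q := (taylor (c : ℚ) (ray P ν t a)).comp (C (((E + (ν + r)) * k : ℕ) : ℚ) * X) -
      C ((h t a : ℚ) * (E * k) ^ (ν + r)) * X ^ (ν + r))
    ((natDegree_sub_le _ _).trans (max_le (natDegree_comp_le.trans (by
      rw [natDegree_taylor]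
      refine (Nat.mul_le_mul e4 ((natDegree_C_mul_le _ _).trans natDegree_X_le)).trans_eq
        (mul_one _))) (natDegree_C_mul_X_pow_le _ _)))
    ((eventually_ge_atTop a₀).mono fun j hj => by
      have h1 : a₀ ≤ (E + (ν + r)) * k * j + c :=
        hj.trans ((Nat.le_mul_of_pos_left j (by positivity)).trans (Nat.le_add_right _ _))
      have h2 := e3 _ h1
      have h3 : ((h t a * (E * k * j) ^ (ν + r) : ℕ) : ℚ) ≤ _ := Nat.cast_le.2 (ht2 j)
      rw [← h2] at h3
      simp only [eval_sub, eval_comp, eval_mul, eval_C, eval_X, eval_pow, taylor_eval]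
      push_cast at h3 ⊢
      rw [sub_nonneg, mul_assoc, ← mul_pow]
      exact h3).frequently
  rw [coeff_sub, comp_C_mul_X_coeff, coeff_taylor_of_le e4, coeff_C_mul, coeff_X_pow_self] at e5
  have e6 := mul_lt_mul_of_pos_right e2 (pow_pos (Nat.cast_pos.2 hk : (0 : ℚ) < k) (ν + r))
  push_cast at e5 e6
  rw [mul_pow, mul_pow] at e5
  linarith

end Pool.Agent.Lib.MP_bc213e_ag.CA
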