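import Mathlib

/-! Expansion of regular functions in power series at a general point. -/

namespace Pool.Agent.Lib.MP_bc213e_ag.CA

open MvPolynomial

theorem lift_gen {R B O : Type} [CommRing R] [CommRing B] [CommRing O] [Algebra R B]
    [Algebra.FormallySmooth R B] (φ : R →+* O) (I : Ideal O) [IsAdicComplete I O] (e : B →+* O)
    (h : ∀ p, e (algebraMap R B p) - φ p ∈ I) :
    ∃ g : B →+* O, (∀ p, g (algebraMap R B p) = φ p) ∧ ∀ b, g b - e b ∈ I := by
  let := φ.toAlgebra
  let e' : B →ₐ[R] O ⧸ I :=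
    { (Ideal.Quotient.mk I).comp e with commutes' := fun p => Ideal.Quotient.eq.2 (h p) }
  obtain ⟨g, hg⟩ := Algebra.FormallySmooth.exists_mkₐ_comp_eq_of_isAdicComplete e'
  exact ⟨g.toRingHom, g.commutes, fun b => Ideal.Quotient.eq.1 (DFunLike.congr_fun hg b)⟩

open scoped IntermediateField.algebraAdjoinAdjoin in
theorem etale_frac {K σ : Type} [Field K] [Algebra ℂ K] {v : σ → K}
    (hv : IsTranscendenceBasis ℂ v) [Algebra (MvPolynomial σ ℂ) K]
    (h : ∀ p, algebraMap (MvPolynomial σ ℂ) K p = aeval v p) :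
    Algebra.FormallyEtale (MvPolynomial σ ℂ) K := by
  let : Algebra (MvPolynomial σ ℂ) (Algebra.adjoin ℂ (Set.range v)) :=
    hv.1.aevalEquiv.toAlgHom.toRingHom.toAlgebra
  have : IsScalarTower (MvPolynomial σ ℂ) (Algebra.adjoin ℂ (Set.range v)) K :=
    .of_algebraMap_eq fun r => (h r).trans (hv.1.algebraMap_aevalEquiv r).symm
  have h1 : Algebra.FormallyEtale (MvPolynomial σ ℂ) (Algebra.adjoin ℂ (Set.range v)) :=
    .of_equiv (AlgEquiv.ofBijective (Algebra.ofId _ (Algebra.adjoin ℂ (Set.range v)))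
      hv.1.aevalEquiv.bijective)
  have h2 : Algebra.FormallyEtale (Algebra.adjoin ℂ (Set.range v))
      (IntermediateField.adjoin ℂ (Set.range v)) := .of_isLocalization (nonZeroDivisors _)
  have h3 : Algebra.IsAlgebraic (IntermediateField.adjoin ℂ (Set.range v)) K :=
    hv.isAlgebraic_field
  have h4 : Algebra.FormallyEtale (IntermediateField.adjoin ℂ (Set.range v)) K :=
    .of_isSeparable _ K
  have h5 : Algebra.FormallyEtale (Algebra.adjoin ℂ (Set.range v)) K :=
    .comp _ (IntermediateField.adjoin ℂ (Set.range v)) K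
  exact .comp _ (Algebra.adjoin ℂ (Set.range v)) K

theorem exists_smooth {R A K : Type} [CommRing R] [IsNoetherianRing R] [CommRing A] [IsDomain A]
    [Field K] [Algebra R A] [Algebra A K] [Algebra R K] [IsScalarTower R A K] [IsFractionRing A K]
    [Algebra.FiniteType R A] [Algebra.FormallySmooth R K] :
    ∃ f : A, f ≠ 0 ∧ Algebra.FormallySmooth R (Localization.Away f) := by
  have : Algebra.FinitePresentation R A := Algebra.FinitePresentation.of_finiteType.1 ‹_›
  have h0 : (⟨⊥, Ideal.isPrime_bot⟩ : PrimeSpectrum A) ∈ Algebra.smoothLocus R A := by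
    have : IsLocalization (⊥ : Ideal A).primeCompl K := by
      rw [Ideal.primeCompl_bot]
      infer_instance
    exact Algebra.FormallySmooth.of_equiv
      ((IsLocalization.algEquiv (⊥ : Ideal A).primeCompl K _).restrictScalars R)
  obtain ⟨_, ⟨_, ⟨f, rfl⟩, rfl⟩, h1, h2⟩ :=
    PrimeSpectrum.isBasis_basic_opens.exists_subset_of_mem_open h0 Algebra.isOpen_smoothLocus
  exact ⟨f, fun h => h1 (by simp [h]), Algebra.basicOpen_subset_smoothLocus_iff.1 h2⟩

theorem exists_ev {A : Type} [CommRing A] [Algebra ℂ A] [Algebra.FiniteType ℂ A] (m : Ideal A)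
    (hm : m.IsMaximal) : ∃ ev : A →ₐ[ℂ] ℂ, ∀ r, ev r = 0 ↔ r ∈ m := by
  let := Ideal.Quotient.field m
  have : Module.Finite ℂ (A ⧸ m) := finite_of_finite_type_of_isJacobsonRing ℂ (A ⧸ m)
  let e := AlgEquiv.ofBijective (Algebra.ofId ℂ (A ⧸ m))
    IsAlgClosed.algebraMap_bijective_of_isIntegral
  refine ⟨e.symm.toAlgHom.comp (Ideal.Quotient.mkₐ ℂ m), fun r => ?_⟩
  simp [Ideal.Quotient.eq_zero_iff_mem]

theorem shift_inj {σ : Type} (c : σ → ℂ) : Function.Injective
    (aeval fun l => MvPowerSeries.C (c l) + MvPowerSeries.X l :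
      MvPolynomial σ ℂ →ₐ[ℂ] MvPowerSeries σ ℂ) := by
  have h1 : (aeval fun l => MvPowerSeries.C (c l) + MvPowerSeries.X l :
      MvPolynomial σ ℂ →ₐ[ℂ] MvPowerSeries σ ℂ) = (coeToMvPowerSeries.algHom ℂ).comp
        (aeval fun l => C (c l) + X l) := algHom_ext fun l => by simp
  have h2 : (aeval fun l => X l - C (c l) : MvPolynomial σ ℂ →ₐ[ℂ] MvPolynomial σ ℂ).comp
      (aeval fun l => C (c l) + X l) = AlgHom.id ℂ _ := algHom_ext fun l => by simp
  rw [h1]
  intro p q h
  have h3 : aeval (fun l => C (c l) + X l) p = aeval (fun l => C (c l) + X l) q :=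
    coe_injective σ ℂ (by simpa using h)
  have h4 := congrArg (aeval fun l => X l - C (c l) :
    MvPolynomial σ ℂ →ₐ[ℂ] MvPolynomial σ ℂ) h3
  exact (DFunLike.congr_fun h2 p).symm.trans (h4.trans (DFunLike.congr_fun h2 q))

theorem exists_tau {A K : Type} [CommRing A] [IsDomain A] [Algebra ℂ A] [Algebra.FiniteType ℂ A]
    [Field K] [Algebra ℂ K] [Algebra A K] [IsScalarTower ℂ A K] [IsFractionRing A K] {n : ℕ}
    (y : Fin n → A) (hy : IsTranscendenceBasis ℂ fun l => algebraMap A K (y l)) :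
    ∃ f : A, f ≠ 0 ∧ ∀ m : Ideal A, m.IsMaximal → f ∉ m →
      ∃ (τ : A →ₐ[ℂ] MvPowerSeries (Fin n) ℂ) (c : Fin n → ℂ), Function.Injective τ ∧
        (∀ r, MvPowerSeries.constantCoeff (τ r) = 0 ↔ r ∈ m) ∧
        ∀ l, τ (y l) = MvPowerSeries.C (c l) + MvPowerSeries.X l := by
  let : Algebra (MvPolynomial (Fin n) ℂ) A :=
    (aeval y : MvPolynomial (Fin n) ℂ →ₐ[ℂ] A).toRingHom.toAlgebra
  have hA : ∀ p, algebraMap (MvPolynomial (Fin n) ℂ) A p = aeval y p := fun _ => rfl
  let : Algebra (MvPolynomial (Fin n) ℂ) K :=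
    ((algebraMap A K).comp (algebraMap (MvPolynomial (Fin n) ℂ) A)).toAlgebra
  have : IsScalarTower (MvPolynomial (Fin n) ℂ) A K := .of_algebraMap_eq fun _ => rfl
  have : IsScalarTower ℂ (MvPolynomial (Fin n) ℂ) A :=
    .of_algebraMap_eq fun r => ((aeval y : MvPolynomial (Fin n) ℂ →ₐ[ℂ] A).commutes r).symm
  have hK : ∀ p, algebraMap (MvPolynomial (Fin n) ℂ) K p =
      aeval (fun l => algebraMap A K (y l)) p := fun p =>
    (aeval_algebraMap_apply K y p).symm
  have := etale_frac hy hK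
  have : Algebra.FiniteType (MvPolynomial (Fin n) ℂ) A :=
    .of_restrictScalars_finiteType ℂ _ _
  obtain ⟨f, hf, hs⟩ := exists_smooth (R := MvPolynomial (Fin n) ℂ) (A := A) (K := K)
  refine ⟨f, hf, fun m hm hfm => ?_⟩
  obtain ⟨ev, hev⟩ := exists_ev m hm
  have hu : IsUnit ((ev : A →+* ℂ) f) := Ne.isUnit fun h => hfm ((hev f).1 h)
  let φ : MvPolynomial (Fin n) ℂ →ₐ[ℂ] MvPowerSeries (Fin n) ℂ :=
    aeval fun l => MvPowerSeries.C (ev (y l)) + MvPowerSeries.X l
  let e : Localization.Away f →+* MvPowerSeries (Fin n) ℂ :=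
    MvPowerSeries.C.comp (IsLocalization.Away.lift f hu)
  have he : ∀ r : A, e (algebraMap A _ r) = MvPowerSeries.C (ev r) := fun r =>
    congrArg MvPowerSeries.C (IsLocalization.Away.lift_eq f hu r)
  obtain ⟨g, h1, h2⟩ := lift_gen φ.toRingHom (Ideal.span (Set.range MvPowerSeries.X)) e
    fun p => by
      rw [IsScalarTower.algebraMap_apply _ A, he, hA]
      change _ - φ p ∈ _
      induction p using MvPolynomial.induction_on with
      | C a => simp [MvPowerSeries.c_eq_algebraMap]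
      | add p q hp hq =>
        convert add_mem hp hq using 1
        simp only [map_add]
        ring
      | mul_X p l hp =>
        convert sub_mem (Ideal.mul_mem_right (MvPowerSeries.C (ev (y l))) _ hp)
          (Ideal.mul_mem_left _ (φ p) (Ideal.subset_span ⟨l, rfl⟩)) using 1
        simp only [map_mul, aeval_X, φ]
        ring
  have h3 : ∀ p, g (algebraMap A _ (aeval y p)) = φ p := fun p => by
    rw [← hA, ← IsScalarTower.algebraMap_apply]
    exact h1 p
  let τ : A →ₐ[ℂ] MvPowerSeries (Fin n) ℂ :=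
    { g.comp (algebraMap A _) with
      commutes' := fun c => by simpa using h3 (algebraMap ℂ _ c) }
  have h4 : ∀ p, τ (aeval y p) = φ p := h3
  refine ⟨τ, fun l => ev (y l), ?_, fun r => ?_, fun l => by simpa [φ] using h4 (X l)⟩
  · rw [injective_iff_map_eq_zero]
    intro r hr
    by_contra h0
    have h5 : IsAlgebraic (MvPolynomial (Fin n) ℂ) r :=
      (hy.isAlgebraic.1 (algebraMap A K r)).of_ringHom_of_comp_eq
        hy.1.aevalEquiv.toAlgHom.toRingHom (algebraMap A K)
        hy.1.aevalEquiv.surjective (IsFractionRing.injective A K)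
        (RingHom.ext fun p => (hy.1.algebraMap_aevalEquiv p).trans (hK p).symm)
    refine Ideal.comap_ne_bot_of_algebraic_mem (I := RingHom.ker τ) h0 hr h5
      (eq_bot_iff.2 fun p hp => shift_inj (fun l => ev (y l)) ?_)
    rw [map_zero]
    exact (h4 p).symm.trans hp
  · have h5 : Ideal.span (Set.range MvPowerSeries.X) ≤
        RingHom.ker (MvPowerSeries.constantCoeff (σ := Fin n) (R := ℂ)) :=
      Ideal.span_le.2 (Set.range_subset_iff.2 fun l => by simp)
    have h6 := h5 (h2 (algebraMap A _ r))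
    rw [RingHom.mem_ker, map_sub, he, MvPowerSeries.constantCoeff_C, sub_eq_zero] at h6
    rw [← hev, ← h6]
    rfl

end Pool.Agent.Lib.MP_bc213e_ag.CA
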