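import Pool.Agent.Lib.MP_bc213e_ag.CA.Core
import Pool.Agent.Lib.MP_bc213e_ag.CA.Poly
import Pool.Agent.Lib.MP_bc213e_ag.CA.Tau
import Pool.Agent.Lib.MP_bc213e_ag.KBD.Untw
import Pool.Agent.Lib.MP_bc213e_ag.KBF.Link

/-! A nef line bundle with an excess of sections is trivial on a curve through a general point. -/

namespace Pool.Agent.Lib.MP_bc213e_ag.CA

open Pool.Agent.Lib.MP_bc213e_ag.Hyp Pool.Agent.Lib.MP_bc213e_ag.KBB
  Pool.Agent.Lib.MP_bc213e_ag.KBD Filter Module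

theorem finrank_range_le_of_ker {V W W' : Type} [AddCommGroup V] [AddCommGroup W]
    [AddCommGroup W'] [Module ℂ V] [Module ℂ W] [Module ℂ W'] [FiniteDimensional ℂ V]
    [FiniteDimensional ℂ W'] (f : V →ₗ[ℂ] W) (g : V →ₗ[ℂ] W')
    (h : LinearMap.ker g ≤ LinearMap.ker f) : finrank ℂ (LinearMap.range f) ≤ finrank ℂ W' := by
  have h1 := f.finrank_range_add_finrank_ker
  have h2 := g.finrank_range_add_finrank_ker
  have h3 := Submodule.finrank_mono h
  have h4 := (LinearMap.range g).finrank_le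
  omega

variable {K ι : Type} [Field K] [Algebra ℂ K] {x g : ι → Kˣ} {i₀ : ι}

/-- Multiplication by the local generator of `t L`. -/
noncomputable def mulG (x g : ι → Kˣ) (i₀ : ι) (t : ℕ) : chart x i₀ →ₗ[ℂ] K :=
  (LinearMap.mulRight ℂ ((g i₀ : K) ^ t)).comp (chart x i₀).val.toLinearMap

/-- The sections of `t L + a H` as functions on the chart. -/
noncomputable def V (x g : ι → Kˣ) (i₀ : ι) (t a : ℕ) : Submodule ℂ (chart x i₀) :=
  (SecS x g t a).comap (mulG x g i₀ t)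

theorem mem_V {t a : ℕ} {r : chart x i₀} :
    r ∈ V x g i₀ t a ↔ Sec x g t a (r * (g i₀ : K) ^ t) := Iff.rfl

theorem sec_eq (one : x i₀ = 1) {t a : ℕ} {s : K} (h : Sec x g t a s) :
    ∃ r ∈ V x g i₀ t a, s = r * (g i₀ : K) ^ t := by
  have h1 : s / (g i₀ : K) ^ t ∈ chart x i₀ := by simpa [one] using h i₀
  have h2 : s = s / (g i₀ : K) ^ t * (g i₀ : K) ^ t :=
    (div_mul_cancel₀ _ (pow_ne_zero _ (g i₀).ne_zero)).symm
  exact ⟨⟨_, h1⟩, mem_V.2 (h2 ▸ h), h2⟩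

theorem V_equiv (one : x i₀ = 1) (t a : ℕ) : Nonempty (V x g i₀ t a ≃ₗ[ℂ] SecS x g t a) := by
  have h1 : Function.Injective (mulG x g i₀ t) := fun r r' e =>
    Subtype.ext (mul_right_cancel₀ (pow_ne_zero t (g i₀).ne_zero) e)
  have h2 : (V x g i₀ t a).map (mulG x g i₀ t) = SecS x g t a :=
    Submodule.map_comap_eq_self fun s hs => by
      obtain ⟨r, -, rfl⟩ := sec_eq one hs
      exact ⟨r, rfl⟩
  exact ⟨(Submodule.equivMapOfInjective _ h1 _).trans (LinearEquiv.ofEq _ _ h2)⟩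

theorem V_mul {t a t' a' : ℕ} {r r' : chart x i₀} (h : r ∈ V x g i₀ t a)
    (h' : r' ∈ V x g i₀ t' a') : r * r' ∈ V x g i₀ (t + t') (a + a') := by
  have := sec_mul (mem_V.1 h) (mem_V.1 h')
  rw [mem_V, Nat.cast_add, pow_add, Subalgebra.coe_mul, mul_mul_mul_comm]
  exact this

theorem V_zero {a : ℕ} {r : chart x i₀} : r ∈ V x g i₀ 0 a ↔ (r : K) ∈ SecS x g 0 a := by
  rw [mem_V, pow_zero, mul_one]
  rfl

theorem span_le_secS (x g : ι → Kˣ) :
    Submodule.span ℂ (Set.range fun i => (x i : K)) ≤ SecS x g 0 1 :=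
  Submodule.span_le.2 (Set.range_subset_iff.2 fun i => by
    have := sec_x x g i 1
    rwa [pow_one] at this)

theorem V_one (one : x i₀ = 1) : 1 ∈ V x g i₀ 0 1 :=
  V_zero.2 (span_le_secS x g (Submodule.subset_span ⟨i₀, by simp [one]⟩))

theorem V_nef (one : x i₀ = 1) (hn : Nef x g) {m : Ideal (chart x i₀)} (hm : m ≠ ⊤) (t : ℕ) :
    ∃ N, 0 < N ∧ ∃ r ∈ V x g i₀ (N * t) N, r ∉ m := by
  obtain ⟨N, hN, h⟩ := hn t
  refine ⟨N, hN, ?_⟩
  by_contra h0
  push Not at h0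
  rw [← Nat.cast_mul] at h
  have h1 : ∀ z ∈ Submodule.span (chart x i₀) {s | Sec x g (N * t : ℕ) N s},
      ∃ r ∈ m, z = r * (g i₀ : K) ^ (N * t) := by
    intro z hz
    induction hz using Submodule.span_induction with
    | mem s hs =>
      obtain ⟨r, h1, h2⟩ := sec_eq one hs
      exact ⟨r, h0 r h1, h2⟩
    | zero => exact ⟨0, zero_mem _, by simp⟩
    | add a b _ _ ha hb =>
      obtain ⟨r, h1, rfl⟩ := ha
      obtain ⟨r', h2, rfl⟩ := hb
      exact ⟨r + r', add_mem h1 h2, by simp [add_mul]⟩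
    | smul c a _ ha =>
      obtain ⟨r, h1, rfl⟩ := ha
      exact ⟨c * r, m.mul_mem_left c h1, by simp [Algebra.smul_def, mul_assoc]⟩
  obtain ⟨r, h2, h3⟩ := h1 _ (h i₀)
  rw [one, Units.val_one, one_pow, mul_one, zpow_natCast] at h3
  have h4 : r = 1 := Subtype.ext (mul_right_cancel₀ (pow_ne_zero (N * t) (g i₀).ne_zero)
    (h3.symm.trans (one_mul _).symm))
  exact hm ((Ideal.eq_top_iff_one m).2 (h4 ▸ h2))

theorem chart_eq (one : x i₀ = 1) :
    chart x i₀ = Algebra.adjoin ℂ (Set.range fun i => (x i : K)) := by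
  simp only [chart, one, Units.val_one, div_one]

theorem gen_top (one : x i₀ = 1) (frac : IsFractionRing (chart x i₀) K) :
    IntermediateField.adjoin ℂ (Set.range fun i => (x i : K)) = ⊤ := by
  refine eq_top_iff.2 fun z _ => ?_
  obtain ⟨a, b, -, rfl⟩ := IsFractionRing.div_surjective (chart x i₀) z
  have h : ∀ r : chart x i₀, algebraMap (chart x i₀) K r ∈
      IntermediateField.adjoin ℂ (Set.range fun i => (x i : K)) := fun r =>
    IntermediateField.algebra_adjoin_le_adjoin ℂ _ (chart_eq one ▸ r.2)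
  exact div_mem (h a) (h b)

theorem growth [Fintype ι] (hc : Cart x g) (one : x i₀ = 1)
    (frac : IsFractionRing (chart x i₀) K) {n : ℕ} (dim : Algebra.trdeg ℂ K = n) (t a : ℕ) :
    ∃ B : ℕ, ∀ k : ℕ, finrank ℂ (SecS x g (k * t : ℕ) (k * a)) ≤ B * (k + 1) ^ n := by
  have : Nonempty ι := ⟨i₀⟩
  obtain ⟨B, hB⟩ := cd_dim _ (gen_top one frac) dim
  obtain ⟨e, he⟩ := main_sec hc (-1) i₀
  refine ⟨B * (t * e + a + 1) ^ n, fun k => ?_⟩
  have := (hB (k * t * e + k * a)).1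
  have h1 := (finrank_le_of_mul (SecS x g (k * t : ℕ) (k * a))
    (Bd (fun i => (x i : K)) (k * t * e + k * a)) (pow_ne_zero (k * t) (fr_ne x g (-1) e i₀))
    fun s hs => secS_le_Bd x g _ (by
      have := sec_mul (sec_pow he (k * t)) (show Sec x g _ _ s from hs)
      rwa [mul_neg_one, neg_add_cancel] at this)).2
  refine h1.trans ((hB _).2.trans ?_)
  rw [mul_assoc B, ← mul_pow]
  exact Nat.mul_le_mul_left _ (Nat.pow_le_pow_left (by nlinarith [Nat.zero_le (t * e)]) _)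

theorem bound [Fintype ι] (hc : Cart x g) (hn : Nef x g) (one : x i₀ = 1) {n : ℕ}
    (τ : chart x i₀ →ₐ[ℂ] MvPowerSeries (Fin n) ℂ) {p : Ideal (chart x i₀)} {lam : ℕ}
    (h : ∀ t a, 0 < a → ∀ r ∈ V x g i₀ t a, τ r ∈ Ord n ℂ (lam * a) → r ∈ p) (a : ℕ) :
    ∃ C : ℕ, ∀ t : ℕ,
      Module.rank ℂ ((V x g i₀ t a).map (Ideal.Quotient.mkₐ ℂ p).toLinearMap) ≤ C := by
  let S := (Finsupp.finite_of_degree_lt (σ := Fin n) (lam * (a + 1))).toFinset
  refine ⟨S.card, fun t => ?_⟩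
  have := secS_fd hc hn i₀ t (a + 1)
  obtain ⟨e⟩ := V_equiv (g := g) one t (a + 1)
  have := e.symm.finiteDimensional
  have h1 := finrank_range_le_of_ker
    ((Ideal.Quotient.mkₐ ℂ p).toLinearMap.comp (V x g i₀ t (a + 1)).subtype)
    (LinearMap.pi fun β : S => (MvPowerSeries.coeff β.1).comp
      (τ.toLinearMap.comp (V x g i₀ t (a + 1)).subtype)) fun r hr =>
      Ideal.Quotient.eq_zero_iff_mem.2 (h t (a + 1) a.succ_pos r.1 r.2 (mem_Ord.2 fun d hd =>
        congrFun hr ⟨d, by simpa [S] using hd⟩))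
  rw [finrank_fintype_fun_eq_card, Fintype.card_coe, ← Nat.cast_le (α := Cardinal),
    finrank_eq_rank, LinearMap.range_comp, Submodule.range_subtype] at h1
  refine (Submodule.rank_mono (Submodule.map_mono fun r hr => ?_)).trans h1
  simpa using V_mul hr (V_one (g := g) one)

theorem main [Fintype ι] (hc : Cart x g) (hn : Nef x g) (one : x i₀ = 1)
    (frac : IsFractionRing (chart x i₀) K) {ν r : ℕ} (dim : Algebra.trdeg ℂ K = (ν + r : ℕ))
    (P : Polynomial (Polynomial ℚ)) (deg : P.natDegree ≤ ν)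
    (excess : 0 < ((P.coeff ν).erase r).leadingCoeff)
    (hilbert : ∀ t : ℕ, ∀ᶠ a : ℕ in atTop,
      (finrank ℂ (SecS x g t a) : ℚ) = P.evalEval (a : ℚ) (t : ℚ)) :
    ∃ f : chart x i₀, f ≠ 0 ∧ ∀ m : Ideal (chart x i₀), m.IsMaximal → f ∉ m →
      ∃ p : Ideal (chart x i₀), p.IsPrime ∧ p < m ∧ (∀ q, q.IsPrime → p < q → ¬ q < m) ∧
        ∀ a : ℕ, ∃ C : ℕ, ∀ t : ℕ,
          Module.rank ℂ ((V x g i₀ t a).map (Ideal.Quotient.mkₐ ℂ p).toLinearMap) ≤ C := by
  have : Nonempty ι := ⟨i₀⟩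
  obtain ⟨P', a₀, hP'⟩ := uniform x g hc hn
  have hP : ∀ t a : ℕ, a₀ ≤ a →
      (finrank ℂ (SecS x g t a) : ℚ) = P.evalEval (a : ℚ) (t : ℚ) := fun t a ha => by
    have := KBF.link (h := fun t a => finrank ℂ (SecS x g t a)) (fun t a ha => (hP' t a ha).2)
      (p := fun t => P.eval (Polynomial.C (t : ℚ))) hilbert t
    rw [(hP' t a ha).2, ← KBF.spec_eval, ← this]
  obtain ⟨y, hy1, hy2, -⟩ := nn _ (gen_top one frac) dim
  have hy3 : ∀ l, y l ∈ chart x i₀ := fun l => by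
    rw [chart_eq one]
    exact Algebra.span_le_adjoin ℂ _ (hy1 l)
  have : Algebra.FiniteType ℂ (chart x i₀) :=
    (Subalgebra.fg_iff_finiteType _).1 (Subalgebra.fg_def.2 ⟨_, Set.finite_range _, rfl⟩)
  obtain ⟨f, hf, h⟩ := exists_tau (K := K) (fun l => (⟨y l, hy3 l⟩ : chart x i₀)) hy2
  refine ⟨f, hf, fun m hm hfm => ?_⟩
  obtain ⟨τ, c, inj, hτ, hy⟩ := h m hm hfm
  by_cases H : ∃ (lam : ℕ) (p : Ideal (chart x i₀)), p.IsPrime ∧ p < m ∧
      ∀ t a, 0 < a → ∀ s ∈ V x g i₀ t a, τ s ∈ Ord _ ℂ (lam * a) → s ∈ p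
  · obtain ⟨lam, p, h1, h2, h3⟩ := H
    have := chart_noeth x i₀
    obtain ⟨p', ⟨h4, h5, h6⟩, h7⟩ := set_has_maximal_iff_noetherian.2
      (inferInstance : IsNoetherian (chart x i₀) (chart x i₀))
      {q : Ideal (chart x i₀) | q.IsPrime ∧ p ≤ q ∧ q < m} ⟨p, h1, le_rfl, h2⟩
    exact ⟨p', h4, h6, fun q hq h8 h9 => h7 q ⟨hq, h5.trans h8.le, h9⟩ h8,
      bound hc hn one τ fun t a ha s hs hs' => h5 (h3 t a ha s hs hs')⟩
  exfalso
  have e : ∀ t a : ℕ, Nonempty (SecS x g t a ≃ₗ[ℂ] (V x g i₀ t a).map τ.toLinearMap) :=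
    fun t a => ⟨(V_equiv one t a).some.symm.trans (Submodule.equivMapOfInjective _ inj _)⟩
  have hX : ∀ l, τ (⟨y l, hy3 l⟩ - c l • 1) = MvPowerSeries.X l := fun l => by
    rw [map_sub, hy, map_smul, map_one, MvPowerSeries.smul_eq_C_mul, mul_one, add_sub_cancel_left]
  let S : Sys (ν + r) ℂ :=
    { W := fun t a => (V x g i₀ t a).map τ.toLinearMap
      mul := by
        rintro t a t' a' _ _ ⟨s, hs, rfl⟩ ⟨s', hs', rfl⟩
        exact ⟨s * s', V_mul hs hs', map_mul τ s s'⟩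
      one0 := ⟨1, V_zero.2 (sec_one x g), map_one τ⟩
      one1 := ⟨1, V_one one, map_one τ⟩
      X_mem := fun l => ⟨_, sub_mem (V_zero.2 (span_le_secS x g (hy1 l)))
        (Submodule.smul_mem _ _ (V_one one)), hX l⟩
      nef := fun t => by
        obtain ⟨N, hN, s, h1, h2⟩ := V_nef one hn hm.ne_top t
        exact ⟨N, hN, τ s, ⟨s, h1, rfl⟩,
          MvPowerSeries.isUnit_iff_constantCoeff.2 (Ne.isUnit fun h0 => h2 ((hτ s).1 h0))⟩
      rad := fun lam _ l => by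
        rw [Ideal.radical_eq_sInf, Submodule.mem_sInf]
        rintro q ⟨h1, h2⟩
        have h3 : Ideal.comap τ q ≤ m := fun s hs => by
          by_contra h0
          exact h2.ne_top (Ideal.eq_top_of_isUnit_mem q hs (MvPowerSeries.isUnit_iff_constantCoeff.2
            (Ne.isUnit fun h' => h0 ((hτ s).1 h'))))
        have h4 : Ideal.comap τ q = m := by
          by_contra h0
          exact H ⟨lam, Ideal.comap τ q, Ideal.IsPrime.comap τ, lt_of_le_of_ne h3 h0,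
            fun t a ha s hs hs' => h1 (Ideal.subset_span ⟨t, a, ha, ⟨s, hs, rfl⟩, hs'⟩)⟩
        rw [← hX l]
        exact h4.ge ((hτ _).1 (by rw [hX l, MvPowerSeries.constantCoeff_X]))
      fd := fun t a => by
        have := secS_fd hc hn i₀ t a
        exact (e t a).some.finiteDimensional }
  refine poly_false P deg excess (fun t a => finrank ℂ (SecS x g t a)) a₀ hP
    (growth hc one frac dim) fun a ha E hE => (S.core ha hE).mono fun t ⟨k, c, hk, h1⟩ =>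
      ⟨k, c, hk, fun j => ?_⟩
  rw [(e _ _).some.finrank_eq, (e _ _).some.finrank_eq]
  exact h1 j

end Pool.Agent.Lib.MP_bc213e_ag.CA
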